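import Pool.Agent.N748.HM.Fin

set_option autoImplicit false

/-!
# Local moments of all orders and local maxima of zeta near the critical line in long windows
-/

namespace Pool.Agent.Results.MP_80d0cf_nt.FreezingNearLine

open MeasureTheory Filter Topology

/-- the modulus of zeta at distance `d` from the critical line and height `t` -/
noncomputable def z (d t : ℝ) : ℝ := ‖riemannZeta (1 / 2 + d + t * Complex.I)‖

/-- the mean of `|ζ(1/2+d+iu)|^k` over the window `[t, t + d^(-θ)]` -/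
noncomputable def W (k θ d t : ℝ) : ℝ := d ^ θ * ∫ u in t..(t + d ^ (-θ)), z d u ^ k

/-- the proportion of the points of a set in `[0, T]` (in the sense of the outer measure) -/
noncomputable def prop (T : ℝ) (S : Set ℝ) : ℝ := (1 / T) * (volume {t : ℝ | 0 ≤ t ∧ t ≤ T ∧ t ∈ S}).toReal

/-- the exponent of the local moment of order `k` in windows of length `d^(-θ)` -/
noncomputable def f (θ k : ℝ) : ℝ :=
  if k ≤ 2 * Real.sqrt (1 + θ) then k ^ 2 / 4 else Real.sqrt (1 + θ) * k - (1 + θ)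

theorem result (d : ℝ → ℝ) (hd0 : ∀ᶠ T : ℝ in atTop, 0 < d T) (hd : Tendsto d atTop (𝓝 0))
    (hdL : Tendsto (fun T : ℝ => d T * Real.log T / Real.log (1 / d T) ^ 2) atTop atTop) (θ : ℝ) (hθ : 0 < θ)
    (η : ℝ) (hη : 0 < η) :
    (∀ k : ℝ, 0 < k → Tendsto (fun T : ℝ => prop T {t |
      η < |Real.log (W k θ (d T) t) / Real.log (1 / d T) - f θ k|}) atTop (𝓝 0)) ∧
    Tendsto (fun T : ℝ => prop T {t |
      ¬ ((∀ u : ℝ, t ≤ u → u ≤ t + d T ^ (-θ) → z (d T) u ≤ d T ^ (-(Real.sqrt (1 + θ) + η))) ∧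
        ∃ u : ℝ, t ≤ u ∧ u ≤ t + d T ^ (-θ) ∧ d T ^ (-(Real.sqrt (1 + θ) - η)) ≤ z (d T) u)}) atTop (𝓝 0) := by
  have hA : Pool.Agent.N748.HM.Ad d := ⟨hd0, hd, hdL⟩
  refine ⟨fun k hk => ?_, Pool.Agent.N748.HM.max_lim Pool.Agent.N748.HM.feF hθ hA hη⟩
  exact Pool.Agent.N748.HM.fe_lim Pool.Agent.N748.HM.feF hθ hk hA hη

end Pool.Agent.Results.MP_80d0cf_nt.FreezingNearLine
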