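import Pool.Agent.N879.PZ.All

set_option autoImplicit false

/-!
# Moments of zeta of every order with shifts of the size of a power of `log T`

For every `n` the product `|ζ(1/2 + it)|² ∏_j |ζ(1/2 + i(t + c_j))|²` of `k = n + 1` squares is integrated over the
`t ∈ [0, T]` such that the mean value of `|ζ|⁴` over `[t, t + U]` is at most a power of `log T` (all `t` up to a set of
measure `T / (log T)^B`). For all shifts `c ∈ [0, U]^n` outside a set of measure at most `ε U^n` the integral is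
asymptotic, up to the factor `1 + O(ε)`, to the main term of the recipe of Conrey, Farmer, Keating, Rubinstein and
Snaith, uniformly for `(log T)^C ≤ U ≤ T^(1/4)`. In particular the whole integral over `[0, T]` is at least `1 - ε` times
that main term. Unconditional.
-/

namespace Pool.Agent.Results.MP_80d0cf_nt.PolylogShifts

open Complex MeasureTheory Set Filter

noncomputable section

variable {n : ℕ}

/-- The product `|ζ(1/2 + it)|² ∏_j |ζ(1/2 + i(t + c_j))|²`. -/
def integrand (c : Fin n → ℝ) (t : ℝ) : ℝ :=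
  ‖riemannZeta (1 / 2 + I * (t : ℂ))‖ ^ 2 * ∏ j, ‖riemannZeta (1 / 2 + I * ((t + c j : ℝ) : ℂ))‖ ^ 2

/-- The regular points `t`: the mean value of `|ζ(1/2 + iu)|⁴` over `t ≤ u ≤ t + U` is at most `V`. -/
def regular (U V : ℝ) : Set ℝ :=
  {t | ∫ u in t..(t + U), ‖riemannZeta (1 / 2 + I * (u : ℂ))‖ ^ 4 ≤ U * V}

/-- The zeta factors `∏_j |ζ(1 + i c_j)|² ∏_{i < j} |ζ(1 + i(c_i - c_j))|²`. -/
def zetaFactor (c : Fin n → ℝ) : ℝ :=
  (∏ j, ‖riemannZeta (1 + I * c j)‖ ^ 2) * ∏ i, ∏ j ∈ Finset.Ioi i, ‖riemannZeta (1 + I * (c i - c j))‖ ^ 2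

/-- The local density at the prime `p`: `(1 - 1/p)^(n+1)` times the mean over the unit circle `z = e(θ)` of
`|1 - z p^(-1/2)|^(-2) ∏_j |1 - z p^(-1/2 - i c_j)|^(-2)`. -/
def localDensity (c : Fin n → ℝ) (p : ℕ) : ℝ :=
  (1 - 1 / (p : ℝ)) ^ (n + 1) * ∫ θ in (0:ℝ)..1,
    1 / (‖1 - cexp (2 * Real.pi * I * θ) * (p : ℂ) ^ (-(1 / 2) : ℂ)‖ ^ 2 *
      ∏ j, ‖1 - cexp (2 * Real.pi * I * θ) * (p : ℂ) ^ (-(1 / 2 + I * c j))‖ ^ 2)

/-- The local factor of `A(c)`: the local density over the Euler factor of `zetaFactor c`. -/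
def localFactor (c : Fin n → ℝ) (p : ℕ) : ℝ :=
  localDensity c p * ((∏ j, ‖1 - (p : ℂ) ^ (-(1 + I * c j))‖ ^ 2) *
    ∏ i, ∏ j ∈ Finset.Ioi i, ‖1 - (p : ℂ) ^ (-(1 + I * (c i - c j)))‖ ^ 2)

/-- The arithmetic factor `A(c)`. -/
def arithmeticFactor (c : Fin n → ℝ) : ℝ := ∏' p : Nat.Primes, localFactor c p

/-- The main term `A(c) ∏_j |ζ(1 + i c_j)|² ∏_{i < j} |ζ(1 + i(c_i - c_j))|² T (log T)^(n+1)`. -/
def mainTerm (T : ℝ) (c : Fin n → ℝ) : ℝ := zetaFactor c * arithmeticFactor c * (T * Real.log T ^ (n + 1))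

/-- (0) The product defining `A(c)` converges absolutely, uniformly in `c`. For every `n` and `B` there are exponents
`C₀`, `V₀` such that for every `ε > 0`, all large `T` and all `U` with `(log T)^C₀ ≤ U ≤ T^(1/4)`:
(1) the points of `[0, T]` which are not regular form a set of measure at most `T / (log T)^B`;
(2) for all `c ∈ [0, U]^n` outside a set of measure at most `ε U^n` the integral of `integrand c` over the regular points
of `[0, T]` is `1 + O(ε)` times `mainTerm T c`;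
(3) for all `c ∈ [0, U]^n` outside a set of measure at most `ε U^n` the integral over all of `[0, T]` is at least `1 - ε`
times `mainTerm T c`. -/
theorem result (n B : ℕ) :
    (∃ C : ℝ, ∀ c : Fin n → ℝ, ∀ p : ℕ, p.Prime → |localFactor c p - 1| ≤ C / (p : ℝ) ^ 2) ∧
    ∃ C₀ V₀ : ℕ, ∀ ε : ℝ, 0 < ε → ∃ T₀ : ℝ, ∀ T : ℝ, T₀ ≤ T → ∀ U : ℝ,
      Real.log T ^ C₀ ≤ U → U ≤ T ^ (1 / 4 : ℝ) →
      volume (Icc 0 T \ regular U (Real.log T ^ V₀)) ≤ ENNReal.ofReal (T / Real.log T ^ B) ∧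
      volume {c : Fin n → ℝ | (∀ j, 0 ≤ c j ∧ c j ≤ U) ∧
        ¬ |(∫ t in regular U (Real.log T ^ V₀) ∩ Icc 0 T, integrand c t) / mainTerm T c - 1| ≤ ε} ≤
          ENNReal.ofReal (ε * U ^ n) ∧
      volume {c : Fin n → ℝ | (∀ j, 0 ≤ c j ∧ c j ≤ U) ∧
        ∫ t in (0:ℝ)..T, integrand c t < (1 - ε) * mainTerm T c} ≤ ENNReal.ofReal (ε * U ^ n) := by
  constructor
  · obtain ⟨C, _, h⟩ := Pool.Agent.N879.PZ.t_AA1 Pool.Agent.N879.PZ.t_LOC1 n
    exact ⟨C, fun c p hp => ((h c).1 p hp).2⟩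
  have hreg : ∀ U V : ℝ, regular U V = Pool.Agent.N879.PZ.Gs U V := by
    intro U V
    unfold regular Pool.Agent.N879.PZ.Gs Pool.Agent.Y969.GP.ff
    ext t
    simp only [mem_ofPred_eq, ← pow_mul]
  have hint : ∀ (c : Fin n → ℝ) (t : ℝ), integrand c t =
      Pool.Agent.Y969.GP.ff t * ∏ j, Pool.Agent.Y969.GP.ff (t + c j) := fun _ _ => rfl
  obtain ⟨C₀, V₀, h⟩ := Pool.Agent.N879.PZ.main_all n B
  refine ⟨C₀, V₀, fun ε hε => ?_⟩
  set e : ℝ := min ε (1 / 2) with he
  have he0 : 0 < e := lt_min hε (by norm_num)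
  have he1 : e ≤ ε := min_le_left _ _
  have he2 : e ≤ 1 / 2 := min_le_right _ _
  obtain ⟨T₀, h⟩ := eventually_atTop.1 (h e he0)
  refine ⟨max T₀ 3, fun T hT U hU hU2 => ?_⟩
  have hT0 : T₀ ≤ T := (le_max_left _ _).trans hT
  have hT3 : 3 ≤ T := (le_max_right _ _).trans hT
  have hTp : 0 ≤ T := by linarith
  obtain ⟨h1, h2⟩ := h T hT0 U hU hU2
  have hL : 0 ≤ Real.log T := Real.log_nonneg (by linarith)
  have hU0 : 0 ≤ U := (pow_nonneg hL _).trans hU
  have hmono : ENNReal.ofReal (e * U ^ n) ≤ ENNReal.ofReal (ε * U ^ n) :=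
    ENNReal.ofReal_le_ofReal (mul_le_mul_of_nonneg_right he1 (pow_nonneg hU0 _))
  have hM : ∀ c : Fin n → ℝ, Pool.Agent.N879.PZ.MG T U (Real.log T ^ V₀) c =
      ∫ t in regular U (Real.log T ^ V₀) ∩ Icc 0 T, integrand c t := by
    intro c
    rw [hreg]
    rfl
  have hmt : ∀ c : Fin n → ℝ, mainTerm T c =
      Pool.Agent.N879.PZ.zp1 c * Pool.Agent.N879.PZ.AA1 c * (T * Real.log T ^ (n + 1)) := fun _ => rfl
  refine ⟨by rw [hreg]; exact h1, ?_, ?_⟩
  · refine (measure_mono ?_).trans (h2.trans hmono)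
    rintro c ⟨hc, hb⟩
    refine ⟨hc, fun hcon => hb ?_⟩
    rw [hM, ← hmt] at hcon
    exact hcon.trans he1
  · refine (measure_mono ?_).trans (h2.trans hmono)
    rintro c ⟨hc, hb⟩
    refine ⟨hc, fun hcon => ?_⟩
    rw [hM, ← hmt] at hcon
    have hcont : Continuous fun t => integrand c t := by
      simp only [hint]
      exact Pool.Agent.Y969.SM.ff_cont.mul
        (continuous_finsetProd _ fun j _ => Pool.Agent.Y969.SM.ff_cont.comp (by fun_prop))
    have hnn : ∀ t, 0 ≤ integrand c t := fun t => by unfold integrand; positivity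
    have hle : ∫ t in regular U (Real.log T ^ V₀) ∩ Icc 0 T, integrand c t ≤ ∫ t in (0:ℝ)..T, integrand c t := by
      rw [intervalIntegral.integral_of_le hTp, ← integral_Icc_eq_integral_Ioc]
      exact setIntegral_mono_set (hcont.continuousOn.integrableOn_compact isCompact_Icc)
        (Eventually.of_forall fun t => hnn t) (Eventually.of_forall fun t ht => ht.2)
    set M := ∫ t in regular U (Real.log T ^ V₀) ∩ Icc 0 T, integrand c t with hMdef
    have hM0 : 0 ≤ M := integral_nonneg fun t => hnn t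
    have h3 : 1 / 2 ≤ M / mainTerm T c := by
      have := (abs_le.mp hcon).1
      linarith
    have hm0 : 0 < mainTerm T c := by
      by_contra hneg
      push Not at hneg
      have : M / mainTerm T c ≤ 0 := div_nonpos_of_nonneg_of_nonpos hM0 hneg
      linarith
    have h4 : (1 - e) * mainTerm T c ≤ M := by
      have h5 : 1 - e ≤ M / mainTerm T c := by
        have := (abs_le.mp hcon).1
        linarith
      rwa [le_div_iff₀ hm0] at h5
    have h6 : (1 - ε) * mainTerm T c ≤ (1 - e) * mainTerm T c :=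
      mul_le_mul_of_nonneg_right (by linarith) hm0.le
    linarith

end

end Pool.Agent.Results.MP_80d0cf_nt.PolylogShifts
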